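import Pool.Agent.helper4.T7.SpecQ

/-!
# Row QSZ of project T7 (MP_16912e_nt): the sizes for one block
-/

set_option autoImplicit false

namespace Pool.Agent.T7

open Finset Pool.Agent.helper3.FT Pool.Agent.T5 Pool.Agent.T6

theorem QSZ_core (G a b m h w T L L' N₁ K₁ : ℝ) (hG : 1 ≤ G) (ha : 0 < a) (hb : 1 ≤ b) (hm : 0 < m) (hh : 0 < h)
    (hw0 : 0 ≤ w) (hw : w ≤ G ^ 2) (rel : a ^ 3 * b = h * m) (hT0 : 0 ≤ T) (T1 : T ≤ 5 * G ^ 7 * h ^ 2)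
    (L1 : m ≤ G ^ 2 * L) (L2 : L ≤ 2 * m) (L1' : b ^ 4 * m ≤ G ^ 2 * L') (L2' : L' ≤ 2 * (b ^ 4 * m))
    (n1 : a ≤ G * N₁) (n2 : N₁ ≤ G * a) (k1 : b ^ 2 * a ≤ G * K₁) (k2 : K₁ ≤ G * (b ^ 2 * a)) :
    32 * (T * w) * L' / N₁ ^ 3 ≤ 320 * G ^ 12 * (h * b ^ 5) ∧
    K₁ ^ 3 / L ≤ G ^ 5 * (h * b ^ 5) ∧
    32 * (T * w) * L / N₁ ^ 3 ≤ 320 * G ^ 12 * (h * b) ∧
    2 * N₁ ^ 2 * K₁ / L ≤ 2 * G ^ 5 * (h * b) ∧
    K₁ ^ 3 / L' ≤ G ^ 5 * (h * b) ∧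
    4 * N₁ / K₁ ≤ 4 * G ^ 2 / b ^ 2 ∧
    5 * N₁ ^ 3 / L ≤ 5 * G ^ 5 * (h / b) ∧
    N₁ ^ 3 / L' ≤ G ^ 5 * (h / b ^ 5) := by
  have hb0 : 0 < b := by linarith
  have hG0 : 0 < G := by linarith
  have hN : 0 < N₁ := (mul_pos_iff_of_pos_left hG0).mp (lt_of_lt_of_le ha n1)
  have hK : 0 < K₁ := (mul_pos_iff_of_pos_left hG0).mp (lt_of_lt_of_le (by positivity) k1)
  have hL : 0 < L := (mul_pos_iff_of_pos_left (by positivity : 0 < G ^ 2)).mp (lt_of_lt_of_le hm L1)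
  have hL' : 0 < L' := (mul_pos_iff_of_pos_left (by positivity : 0 < G ^ 2)).mp (lt_of_lt_of_le (by positivity) L1')
  have hTw : T * w ≤ 5 * G ^ 9 * h ^ 2 := by
    calc T * w ≤ (5 * G ^ 7 * h ^ 2) * G ^ 2 := mul_le_mul T1 hw hw0 (by positivity)
      _ = _ := by ring
  have hN3 : a ^ 3 ≤ G ^ 3 * N₁ ^ 3 := by
    calc a ^ 3 ≤ (G * N₁) ^ 3 := pow_le_pow_left₀ ha.le n1 3
      _ = _ := by ring
  have hN3' : N₁ ^ 3 ≤ G ^ 3 * a ^ 3 := by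
    calc N₁ ^ 3 ≤ (G * a) ^ 3 := pow_le_pow_left₀ hN.le n2 3
      _ = _ := by ring
  have hN2' : N₁ ^ 2 ≤ G ^ 2 * a ^ 2 := by
    calc N₁ ^ 2 ≤ (G * a) ^ 2 := pow_le_pow_left₀ hN.le n2 2
      _ = _ := by ring
  have hK3' : K₁ ^ 3 ≤ G ^ 3 * (b ^ 5 * (h * m)) := by
    calc K₁ ^ 3 ≤ (G * (b ^ 2 * a)) ^ 3 := pow_le_pow_left₀ hK.le k2 3
      _ = G ^ 3 * (b ^ 5 * (a ^ 3 * b)) := by ring
      _ = _ := by rw [rel]
  have ha3 : a ^ 3 = h / b * m := by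
    rw [div_mul_eq_mul_div, ← rel]
    field_simp
  refine ⟨?_, ?_, ?_, ?_, ?_, ?_, ?_, ?_⟩
  · rw [div_le_iff₀ (pow_pos hN 3)]
    calc 32 * (T * w) * L' ≤ 32 * (5 * G ^ 9 * h ^ 2) * (2 * (b ^ 4 * m)) := by
          refine mul_le_mul ?_ L2' hL'.le (by positivity)
          linarith
      _ = 320 * G ^ 9 * h * b ^ 4 * (h * m) := by ring
      _ = 320 * G ^ 9 * (h * b ^ 5) * a ^ 3 := by rw [← rel]; ring
      _ ≤ 320 * G ^ 9 * (h * b ^ 5) * (G ^ 3 * N₁ ^ 3) := mul_le_mul_of_nonneg_left hN3 (by positivity)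
      _ = _ := by ring
  · rw [div_le_iff₀ hL]
    calc K₁ ^ 3 ≤ G ^ 3 * (b ^ 5 * (h * m)) := hK3'
      _ = G ^ 3 * (h * b ^ 5) * m := by ring
      _ ≤ G ^ 3 * (h * b ^ 5) * (G ^ 2 * L) := mul_le_mul_of_nonneg_left L1 (by positivity)
      _ = _ := by ring
  · rw [div_le_iff₀ (pow_pos hN 3)]
    calc 32 * (T * w) * L ≤ 32 * (5 * G ^ 9 * h ^ 2) * (2 * m) := by
          refine mul_le_mul ?_ L2 hL.le (by positivity)
          linarith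
      _ = 320 * G ^ 9 * h * (h * m) := by ring
      _ = 320 * G ^ 9 * (h * b) * a ^ 3 := by rw [← rel]; ring
      _ ≤ 320 * G ^ 9 * (h * b) * (G ^ 3 * N₁ ^ 3) := mul_le_mul_of_nonneg_left hN3 (by positivity)
      _ = _ := by ring
  · rw [div_le_iff₀ hL]
    calc 2 * N₁ ^ 2 * K₁ ≤ 2 * (G ^ 2 * a ^ 2) * (G * (b ^ 2 * a)) := by
          refine mul_le_mul ?_ k2 hK.le (by positivity)
          linarith
      _ = 2 * G ^ 3 * b * (a ^ 3 * b) := by ring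
      _ = 2 * G ^ 3 * (h * b) * m := by rw [rel]; ring
      _ ≤ 2 * G ^ 3 * (h * b) * (G ^ 2 * L) := mul_le_mul_of_nonneg_left L1 (by positivity)
      _ = _ := by ring
  · rw [div_le_iff₀ hL']
    calc K₁ ^ 3 ≤ G ^ 3 * (b ^ 5 * (h * m)) := hK3'
      _ = G ^ 3 * (h * b) * (b ^ 4 * m) := by ring
      _ ≤ G ^ 3 * (h * b) * (G ^ 2 * L') := mul_le_mul_of_nonneg_left L1' (by positivity)
      _ = _ := by ring
  · rw [div_le_div_iff₀ hK (by positivity)]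
    calc 4 * N₁ * b ^ 2 ≤ 4 * (G * a) * b ^ 2 := by
          refine mul_le_mul_of_nonneg_right ?_ (by positivity)
          linarith
      _ = 4 * G * (b ^ 2 * a) := by ring
      _ ≤ 4 * G * (G * K₁) := mul_le_mul_of_nonneg_left k1 (by positivity)
      _ = _ := by ring
  · rw [div_le_iff₀ hL]
    calc 5 * N₁ ^ 3 ≤ 5 * (G ^ 3 * a ^ 3) := by linarith
      _ = 5 * G ^ 3 * (h / b) * m := by rw [ha3]; ring
      _ ≤ 5 * G ^ 3 * (h / b) * (G ^ 2 * L) := mul_le_mul_of_nonneg_left L1 (by positivity)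
      _ = _ := by ring
  · rw [div_le_iff₀ hL']
    calc N₁ ^ 3 ≤ G ^ 3 * a ^ 3 := hN3'
      _ = G ^ 3 * (h / b ^ 5) * (b ^ 4 * m) := by rw [ha3]; field_simp
      _ ≤ G ^ 3 * (h / b ^ 5) * (G ^ 2 * L') := mul_le_mul_of_nonneg_left L1' (by positivity)
      _ = _ := by ring

/-- the error term -/
theorem QSZ_err (G h U s T P ρ D : ℝ) (hG : 1 ≤ G) (hh : 0 < h) (hhU : h ^ 2 ≤ U) (hT : 0 ≤ T) (hTh : T ≤ 5 * G ^ 7 * h ^ 2)
    (hP : 0 ≤ P) (hPU : P ≤ G ^ 2 * U) (hρ : 0 ≤ ρ) (hρh : ρ ≤ 2000 * G ^ 14 * h) (hs : 0 ≤ s) (hD0 : 0 ≤ D) (hD : D ≤ G ^ 4 / h ^ 2) :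
    D * (s * (T * P + ρ ^ (3 / 2 : ℝ) * (T ^ (5 / 4 : ℝ) + P * T ^ (1 / 4 : ℝ)))) ≤ 2 * 10 ^ 8 * G ^ 46 * (s * U) := by
  have hG0 : 0 < G := by linarith
  have hU0 : 0 < U := lt_of_lt_of_le (by positivity) hhU
  obtain ⟨x, hx⟩ : ∃ x : ℝ, x = h ^ 2 := ⟨_, rfl⟩
  have hx0 : 0 < x := by rw [hx]; positivity
  rw [← hx] at hhU hTh hD
  have hGp : ∀ i : ℕ, 1 ≤ G ^ i := fun i => one_le_pow₀ hG
  have h1 : ρ ^ (3 / 2 : ℝ) ≤ 4 * 10 ^ 6 * G ^ 28 * x ^ (3 / 4 : ℝ) := by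
    have h2 : ρ ^ (3 / 2 : ℝ) = (ρ ^ 2) ^ (3 / 4 : ℝ) := by
      rw [← Real.rpow_natCast, ← Real.rpow_mul hρ]
      norm_num
    have h3 : ρ ^ 2 ≤ (4 * 10 ^ 6 * G ^ 28) * x := by
      calc ρ ^ 2 ≤ (2000 * G ^ 14 * h) ^ 2 := pow_le_pow_left₀ hρ hρh 2
        _ = _ := by rw [hx]; ring
    rw [h2]
    calc (ρ ^ 2) ^ (3 / 4 : ℝ) ≤ ((4 * 10 ^ 6 * G ^ 28) * x) ^ (3 / 4 : ℝ) := Real.rpow_le_rpow (by positivity) h3 (by norm_num)
      _ = (4 * 10 ^ 6 * G ^ 28) ^ (3 / 4 : ℝ) * x ^ (3 / 4 : ℝ) := Real.mul_rpow (by positivity) hx0.le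
      _ ≤ (4 * 10 ^ 6 * G ^ 28) ^ (1 : ℝ) * x ^ (3 / 4 : ℝ) := by
          refine mul_le_mul_of_nonneg_right ?_ (by positivity)
          exact Real.rpow_le_rpow_of_exponent_le (by nlinarith [hGp 28]) (by norm_num)
      _ = _ := by rw [Real.rpow_one]
  have h5 : T ^ (5 / 4 : ℝ) ≤ 25 * G ^ 14 * x ^ (5 / 4 : ℝ) := by
    calc T ^ (5 / 4 : ℝ) ≤ ((5 * G ^ 7) * x) ^ (5 / 4 : ℝ) := Real.rpow_le_rpow hT hTh (by norm_num)
      _ = (5 * G ^ 7) ^ (5 / 4 : ℝ) * x ^ (5 / 4 : ℝ) := Real.mul_rpow (by positivity) hx0.le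
      _ ≤ (5 * G ^ 7) ^ (2 : ℝ) * x ^ (5 / 4 : ℝ) := by
          refine mul_le_mul_of_nonneg_right ?_ (by positivity)
          exact Real.rpow_le_rpow_of_exponent_le (by nlinarith [hGp 7]) (by norm_num)
      _ = _ := by rw [Real.rpow_two]; ring
  have h6 : T ^ (1 / 4 : ℝ) ≤ 5 * G ^ 7 * x ^ (1 / 4 : ℝ) := by
    calc T ^ (1 / 4 : ℝ) ≤ ((5 * G ^ 7) * x) ^ (1 / 4 : ℝ) := Real.rpow_le_rpow hT hTh (by norm_num)
      _ = (5 * G ^ 7) ^ (1 / 4 : ℝ) * x ^ (1 / 4 : ℝ) := Real.mul_rpow (by positivity) hx0.le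
      _ ≤ (5 * G ^ 7) ^ (1 : ℝ) * x ^ (1 / 4 : ℝ) := by
          refine mul_le_mul_of_nonneg_right ?_ (by positivity)
          exact Real.rpow_le_rpow_of_exponent_le (by nlinarith [hGp 7]) (by norm_num)
      _ = _ := by rw [Real.rpow_one]
  have h54 : x ^ (3 / 4 : ℝ) * x ^ (5 / 4 : ℝ) = x * x := by
    rw [← Real.rpow_add hx0, ← sq, ← Real.rpow_natCast]
    norm_num
  have h14 : x ^ (3 / 4 : ℝ) * x ^ (1 / 4 : ℝ) = x := by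
    rw [← Real.rpow_add hx0]
    norm_num
  have g1 : T * P ≤ 5 * G ^ 9 * (x * U) := by
    calc T * P ≤ (5 * G ^ 7 * x) * (G ^ 2 * U) := mul_le_mul hTh hPU hP (by positivity)
      _ = _ := by ring
  have g2 : ρ ^ (3 / 2 : ℝ) * T ^ (5 / 4 : ℝ) ≤ 10 ^ 8 * G ^ 42 * (x * U) := by
    calc ρ ^ (3 / 2 : ℝ) * T ^ (5 / 4 : ℝ) ≤ (4 * 10 ^ 6 * G ^ 28 * x ^ (3 / 4 : ℝ)) * (25 * G ^ 14 * x ^ (5 / 4 : ℝ)) :=
          mul_le_mul h1 h5 (by positivity) (by positivity)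
      _ = 10 ^ 8 * G ^ 42 * (x ^ (3 / 4 : ℝ) * x ^ (5 / 4 : ℝ)) := by ring
      _ = 10 ^ 8 * G ^ 42 * (x * x) := by rw [h54]
      _ ≤ _ := mul_le_mul_of_nonneg_left (mul_le_mul_of_nonneg_left hhU hx0.le) (by positivity)
  have g3 : ρ ^ (3 / 2 : ℝ) * (P * T ^ (1 / 4 : ℝ)) ≤ 2 * 10 ^ 7 * G ^ 37 * (x * U) := by
    calc ρ ^ (3 / 2 : ℝ) * (P * T ^ (1 / 4 : ℝ)) ≤
        (4 * 10 ^ 6 * G ^ 28 * x ^ (3 / 4 : ℝ)) * ((G ^ 2 * U) * (5 * G ^ 7 * x ^ (1 / 4 : ℝ))) :=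
          mul_le_mul h1 (mul_le_mul hPU h6 (by positivity) (by positivity)) (by positivity) (by positivity)
      _ = 2 * 10 ^ 7 * G ^ 37 * ((x ^ (3 / 4 : ℝ) * x ^ (1 / 4 : ℝ)) * U) := by ring
      _ = _ := by rw [h14]
  have g4 : T * P + ρ ^ (3 / 2 : ℝ) * (T ^ (5 / 4 : ℝ) + P * T ^ (1 / 4 : ℝ)) ≤ 2 * 10 ^ 8 * G ^ 42 * (x * U) := by
    have e1 : 5 * G ^ 9 * (x * U) ≤ 5 * G ^ 42 * (x * U) := by
      refine mul_le_mul_of_nonneg_right ?_ (by positivity)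
      linarith [pow_le_pow_right₀ hG (by norm_num : 9 ≤ 42)]
    have e2 : 2 * 10 ^ 7 * G ^ 37 * (x * U) ≤ 2 * 10 ^ 7 * G ^ 42 * (x * U) := by
      refine mul_le_mul_of_nonneg_right ?_ (by positivity)
      linarith [pow_le_pow_right₀ hG (by norm_num : 37 ≤ 42)]
    have e3 : 0 ≤ G ^ 42 * (x * U) := by positivity
    rw [mul_add]
    linarith
  calc D * (s * (T * P + ρ ^ (3 / 2 : ℝ) * (T ^ (5 / 4 : ℝ) + P * T ^ (1 / 4 : ℝ)))) ≤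
      D * (s * (2 * 10 ^ 8 * G ^ 42 * (x * U))) :=
        mul_le_mul_of_nonneg_left (mul_le_mul_of_nonneg_left g4 hs) hD0
    _ ≤ (G ^ 4 / x) * (s * (2 * 10 ^ 8 * G ^ 42 * (x * U))) :=
        mul_le_mul_of_nonneg_right hD (by positivity)
    _ = _ := by field_simp

/-- the final sizes, with the numbers `p = √Y`, `a = sN`, `m = p a`, `h = a² b / p` -/
theorem QSZ_fin (G Q p a b κ v R : ℝ) (q e' : ℕ) (hG : 1 ≤ G) (hQ : 1 ≤ Q) (hQ2 : 64 * G ^ 5 ≤ Q ^ 2) (hp : 0 < p) (ha : 0 < a)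
    (hb : 1 ≤ b) (hp1 : Q ^ 19 ≤ p ^ 2) (hap : 1 ≤ Q ^ 3 * (a / p) ^ 2) (hap1 : (a / p) ^ 2 ≤ 1)
    (hκ : 0 < κ) (hκ1 : κ ≤ 1) (hκG : 1 ≤ G * κ) (hv : 0 < v) (hvG : 1 ≤ G * v) (hvG2 : v ≤ G) (hR : 1 ≤ R) (hRG : R ≤ G)
    (hq : 1 ≤ q) (hqG : (q : ℝ) ≤ G) (heq : e' ∣ q)
    (N₁ K₁ : ℕ) (n1 : a ≤ G * N₁) (n2 : (N₁ : ℝ) ≤ G * a) (k1 : b ^ 2 * a ≤ G * K₁) (k2 : (K₁ : ℝ) ≤ G * (b ^ 2 * a)) :
    ∃ (L L' H : ℕ) (ρ : ℝ), EB N₁ K₁ L L' (2 * H + 1) (q * (q / e')) 1 1 1 b ρ ∧ Q ^ 10 ≤ ((2 * H + 1 : ℕ) : ℝ) ∧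
      κ * (p * a) / q ≤ (L : ℝ) ∧ (L : ℝ) ≤ 2 * κ * (p * a) / q ∧ κ * (b ^ 4 * (p * a)) / q ≤ (L' : ℝ) ∧
      (L' : ℝ) ≤ 2 * κ * (b ^ 4 * (p * a)) / q ∧
      R * ((N₁ : ℝ) ^ 3 * K₁ * e') ≤ H * (v * p ^ 2) ∧ 64 * (v * p ^ 2) ≤ (N₁ : ℝ) ^ 3 * K₁ * e' ∧
      p ^ 2 / ((N₁ : ℝ) ^ 3 * K₁) * (√(L * L' : ℝ) * ((2 * H + 1 : ℕ) * (N₁ * K₁) +
        ρ ^ (3 / 2 : ℝ) * (((2 * H + 1 : ℕ) : ℝ) ^ (5 / 4 : ℝ) + N₁ * K₁ * ((2 * H + 1 : ℕ) : ℝ) ^ (1 / 4 : ℝ)))) ≤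
        (4 * 10 ^ 8 * G ^ 46) * (b ^ 4 * p ^ 4 * (a / p) ^ 3) := by
  have hb0 : 0 < b := by linarith
  have hQ0 : 0 < Q := by linarith
  have hG0 : 0 < G := by linarith
  have hGp : ∀ i : ℕ, 1 ≤ G ^ i := fun i => one_le_pow₀ hG
  have hqR : (1 : ℝ) ≤ q := by exact_mod_cast hq
  have he'0 : 0 < e' := Nat.pos_of_dvd_of_pos heq hq
  have he'1 : (1 : ℝ) ≤ e' := by exact_mod_cast he'0
  have he'q : (e' : ℝ) ≤ q := by exact_mod_cast Nat.le_of_dvd hq heq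
  have he'G : (e' : ℝ) ≤ G := le_trans he'q hqG
  -- the multiplier
  obtain ⟨w, hw⟩ : ∃ w : ℝ, w = ((q * (q / e') : ℕ) : ℝ) := ⟨_, rfl⟩
  have hw0 : 0 ≤ w := by rw [hw]; exact Nat.cast_nonneg _
  have hwG : w ≤ G ^ 2 := by
    have h1 : ((q / e' : ℕ) : ℝ) ≤ q := by exact_mod_cast Nat.div_le_self q e'
    calc w = (q : ℝ) * ((q / e' : ℕ) : ℝ) := by rw [hw]; push_cast; ring
      _ ≤ G * G := mul_le_mul hqG (le_trans h1 hqG) (Nat.cast_nonneg _) hG0.le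
      _ = _ := by ring
  -- the basic sizes
  set c := a / p with hc
  have hc0 : 0 < c := by positivity
  have hac : a = c * p := by rw [hc]; field_simp
  have ha2 : Q ^ 16 ≤ a ^ 2 := by
    have h1 : Q ^ 19 * 1 ≤ p ^ 2 * (Q ^ 3 * c ^ 2) := mul_le_mul hp1 hap (by norm_num) (by positivity)
    have h2 : Q ^ 3 * Q ^ 16 ≤ Q ^ 3 * a ^ 2 := by
      rw [hac]
      calc Q ^ 3 * Q ^ 16 = Q ^ 19 * 1 := by ring
        _ ≤ _ := h1
        _ = _ := by ring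
    exact le_of_mul_le_mul_left h2 (by positivity)
  have ha8 : Q ^ 8 ≤ a := by
    have h1 : (Q ^ 8) ^ 2 ≤ a ^ 2 := by
      calc (Q ^ 8) ^ 2 = Q ^ 16 := by ring
        _ ≤ _ := ha2
    exact (pow_le_pow_iff_left₀ (by positivity) ha.le (by norm_num)).mp h1
  have hpQ : Q ^ 9 ≤ p := by
    have h1 : (Q ^ 9) ^ 2 ≤ p ^ 2 := by
      calc (Q ^ 9) ^ 2 = Q ^ 18 := by ring
        _ ≤ Q ^ 19 := pow_le_pow_right₀ hQ (by norm_num)
        _ ≤ _ := hp1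
    exact (pow_le_pow_iff_left₀ (by positivity) hp.le (by norm_num)).mp h1
  obtain ⟨m, hm⟩ : ∃ m : ℝ, m = p * a := ⟨_, rfl⟩
  have hm0 : 0 < m := by rw [hm]; positivity
  obtain ⟨h, hh⟩ : ∃ h : ℝ, h = a ^ 2 * b / p := ⟨_, rfl⟩
  have hh0 : 0 < h := by rw [hh]; positivity
  have rel : a ^ 3 * b = h * m := by rw [hh, hm]; field_simp
  have hh2 : h ^ 2 * p ^ 2 = a ^ 4 * b ^ 2 := by rw [hh]; field_simp
  have hG5 : G ^ 5 ≤ Q ^ 2 := by nlinarith [hGp 5]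
  have hmG : G ^ 2 ≤ m := by
    calc G ^ 2 ≤ G ^ 5 := pow_le_pow_right₀ hG (by norm_num)
      _ ≤ Q ^ 2 := hG5
      _ ≤ Q ^ 17 := pow_le_pow_right₀ hQ (by norm_num)
      _ = Q ^ 9 * Q ^ 8 := by ring
      _ ≤ p * a := mul_le_mul hpQ ha8 (by positivity) hp.le
      _ = m := hm.symm
  have hhc : h ^ 2 = c ^ 2 * (a ^ 2 * b ^ 2) := by rw [hh, hc]; field_simp
  have hhU : h ^ 2 ≤ a ^ 2 * b ^ 2 := by
    rw [hhc]
    calc c ^ 2 * (a ^ 2 * b ^ 2) ≤ 1 * (a ^ 2 * b ^ 2) := mul_le_mul_of_nonneg_right hap1 (by positivity)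
      _ = _ := by ring
  have hh13 : Q ^ 13 ≤ h ^ 2 := by
    have h1 : h ^ 2 = c ^ 4 * p ^ 2 * b ^ 2 := by
      rw [hh, hac]; field_simp
    have h2 : 1 ≤ Q ^ 6 * c ^ 4 := by
      calc (1 : ℝ) ≤ (Q ^ 3 * c ^ 2) ^ 2 := one_le_pow₀ hap
        _ = _ := by ring
    have h3 : Q ^ 6 * Q ^ 13 ≤ Q ^ 6 * h ^ 2 := by
      calc Q ^ 6 * Q ^ 13 = Q ^ 19 * 1 * 1 := by ring
        _ ≤ p ^ 2 * (Q ^ 6 * c ^ 4) * b ^ 2 := by
            refine mul_le_mul (mul_le_mul hp1 h2 (by norm_num) (by positivity)) (one_le_pow₀ hb) (by norm_num) (by positivity)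
        _ = Q ^ 6 * h ^ 2 := by rw [h1]; ring
    exact le_of_mul_le_mul_left h3 (by positivity)
  have hbig : 64 * G ^ 5 * Q ^ 10 ≤ h ^ 2 := by
    calc 64 * G ^ 5 * Q ^ 10 ≤ Q ^ 2 * Q ^ 10 := mul_le_mul_of_nonneg_right hQ2 (by positivity)
      _ = Q ^ 12 := by ring
      _ ≤ Q ^ 13 := pow_le_pow_right₀ hQ (by norm_num)
      _ ≤ _ := hh13
  have hQ10 : 1 ≤ Q ^ 10 := one_le_pow₀ hQ
  have hb4 : 1 ≤ b ^ 4 := one_le_pow₀ hb
  have hN0 : (0 : ℝ) < N₁ := (mul_pos_iff_of_pos_left hG0).mp (lt_of_lt_of_le ha n1)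
  have hK0 : (0 : ℝ) < K₁ := (mul_pos_iff_of_pos_left hG0).mp (lt_of_lt_of_le (by positivity) k1)
  -- the product `N₁³ K₁`
  obtain ⟨Z, hZ⟩ : ∃ Z : ℝ, Z = (N₁ : ℝ) ^ 3 * K₁ := ⟨_, rfl⟩
  have hZ0 : 0 < Z := by rw [hZ]; positivity
  have hZ1 : h ^ 2 * p ^ 2 ≤ G ^ 4 * Z := by
    calc h ^ 2 * p ^ 2 = a ^ 3 * (b ^ 2 * a) := by rw [hh2]; ring
      _ ≤ (G * N₁) ^ 3 * (G * K₁) := mul_le_mul (pow_le_pow_left₀ ha.le n1 3) k1 (by positivity) (by positivity)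
      _ = _ := by rw [hZ]; ring
  have hZ2 : Z ≤ G ^ 4 * (h ^ 2 * p ^ 2) := by
    calc Z = (N₁ : ℝ) ^ 3 * K₁ := hZ
      _ ≤ (G * a) ^ 3 * (G * (b ^ 2 * a)) := mul_le_mul (pow_le_pow_left₀ hN0.le n2 3) k2 hK0.le (by positivity)
      _ = G ^ 4 * (a ^ 4 * b ^ 2) := by ring
      _ = _ := by rw [hh2]
  -- the numbers `X` and `H`
  obtain ⟨X, hX⟩ : ∃ X : ℝ, X = R * (Z * e') / (v * p ^ 2) := ⟨_, rfl⟩
  have hXp : X * (v * p ^ 2) = R * (Z * e') := by rw [hX]; field_simp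
  have hX1 : h ^ 2 / G ^ 5 ≤ X := by
    rw [hX, div_le_div_iff₀ (by positivity) (by positivity)]
    calc h ^ 2 * (v * p ^ 2) = v * (h ^ 2 * p ^ 2) := by ring
      _ ≤ G * (G ^ 4 * Z) := mul_le_mul hvG2 hZ1 (by positivity) hG0.le
      _ = 1 * (Z * 1) * G ^ 5 := by ring
      _ ≤ R * (Z * e') * G ^ 5 := by
          refine mul_le_mul_of_nonneg_right (mul_le_mul hR (mul_le_mul_of_nonneg_left he'1 hZ0.le) (by positivity) (by positivity)) (by positivity)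
  have hX2 : X ≤ G ^ 7 * h ^ 2 := by
    rw [hX, div_le_iff₀ (by positivity)]
    calc R * (Z * e') ≤ G * ((G ^ 4 * (h ^ 2 * p ^ 2)) * G) :=
          mul_le_mul hRG (mul_le_mul hZ2 he'G (by positivity) (by positivity)) (by positivity) hG0.le
      _ = G ^ 6 * h ^ 2 * (1 * p ^ 2) := by ring
      _ ≤ G ^ 6 * h ^ 2 * ((G * v) * p ^ 2) :=
          mul_le_mul_of_nonneg_left (mul_le_mul_of_nonneg_right hvG (by positivity)) (by positivity)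
      _ = _ := by ring
  have hX3 : 64 * Q ^ 10 ≤ X := by
    refine le_trans ?_ hX1
    rw [le_div_iff₀ (by positivity)]
    calc 64 * Q ^ 10 * G ^ 5 = 64 * G ^ 5 * Q ^ 10 := by ring
      _ ≤ _ := hbig
  obtain ⟨H, hH⟩ : ∃ H : ℕ, H = ⌈X⌉₊ := ⟨_, rfl⟩
  have hHX : X ≤ H := by rw [hH]; exact Nat.le_ceil _
  have hHX2 : (H : ℝ) < X + 1 := by rw [hH]; exact Nat.ceil_lt_add_one (by linarith)
  obtain ⟨T, hT⟩ : ∃ T : ℝ, T = ((2 * H + 1 : ℕ) : ℝ) := ⟨_, rfl⟩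
  have hT2 : T = 2 * H + 1 := by rw [hT]; push_cast; ring
  have hThigh : T ≤ 5 * G ^ 7 * h ^ 2 := by linarith
  have hT1 : Q ^ 10 ≤ T := by linarith
  have hT0 : 0 ≤ T := by linarith
  -- L and L'
  have hκq : G ^ 2 * (κ * m / q) ≥ m := by
    have h1 : m * q ≤ G ^ 2 * (κ * m) := by
      calc m * q ≤ m * G := mul_le_mul_of_nonneg_left hqG hm0.le
        _ = G * (1 * m) := by ring
        _ ≤ G * ((G * κ) * m) := mul_le_mul_of_nonneg_left (mul_le_mul_of_nonneg_right hκG hm0.le) hG0.le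
        _ = _ := by ring
    have h2 : m ≤ G ^ 2 * (κ * m) / q := by
      rw [le_div_iff₀ (by linarith)]
      exact h1
    calc m ≤ G ^ 2 * (κ * m) / q := h2
      _ = _ := by ring
  have hone : 1 ≤ κ * m / q := by
    have h1 : G ^ 2 * 1 ≤ G ^ 2 * (κ * m / q) := by linarith
    exact le_of_mul_le_mul_left h1 (by positivity)
  have hκ2 : κ * m / q ≤ m := by
    rw [div_le_iff₀ (by linarith)]
    calc κ * m ≤ 1 * m := mul_le_mul_of_nonneg_right hκ1 hm0.le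
      _ ≤ q * m := mul_le_mul_of_nonneg_right hqR hm0.le
      _ = _ := by ring
  obtain ⟨L, hL⟩ : ∃ L : ℕ, L = ⌈κ * m / q⌉₊ := ⟨_, rfl⟩
  obtain ⟨L', hL'⟩ : ∃ L' : ℕ, L' = ⌈κ * (b ^ 4 * m) / q⌉₊ := ⟨_, rfl⟩
  have l1 : κ * m / q ≤ L := by rw [hL]; exact Nat.le_ceil _
  have l2 : (L : ℝ) < κ * m / q + 1 := by rw [hL]; exact Nat.ceil_lt_add_one (by positivity)
  have l1' : κ * (b ^ 4 * m) / q ≤ L' := by rw [hL']; exact Nat.le_ceil _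
  have l2' : (L' : ℝ) < κ * (b ^ 4 * m) / q + 1 := by rw [hL']; exact Nat.ceil_lt_add_one (by positivity)
  have hlb : κ * (b ^ 4 * m) / q = b ^ 4 * (κ * m / q) := by ring
  have hkm0 : 0 ≤ κ * m / q := by positivity
  have hone' : 1 ≤ κ * (b ^ 4 * m) / q := by
    rw [hlb]
    nlinarith
  have l3 : (L : ℝ) ≤ 2 * (κ * m / q) := by linarith
  have l3' : (L' : ℝ) ≤ 2 * (κ * (b ^ 4 * m) / q) := by linarith
  have L1 : m ≤ G ^ 2 * L := le_trans hκq (mul_le_mul_of_nonneg_left l1 (by positivity))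
  have L2 : (L : ℝ) ≤ 2 * m := by linarith
  have L1' : b ^ 4 * m ≤ G ^ 2 * L' := by
    calc b ^ 4 * m ≤ b ^ 4 * (G ^ 2 * (κ * m / q)) := mul_le_mul_of_nonneg_left hκq (by positivity)
      _ = G ^ 2 * (κ * (b ^ 4 * m) / q) := by rw [hlb]; ring
      _ ≤ _ := mul_le_mul_of_nonneg_left l1' (by positivity)
  have L2' : (L' : ℝ) ≤ 2 * (b ^ 4 * m) := by
    have h1 : κ * (b ^ 4 * m) / q ≤ b ^ 4 * m := by
      rw [hlb]
      exact mul_le_mul_of_nonneg_left hκ2 (by positivity)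
    linarith
  have hL0 : (0 : ℝ) < L := by linarith
  have hL0' : (0 : ℝ) < L' := by linarith
  obtain ⟨q1, q2, q3, q4, q5, q6, q7, q8⟩ := QSZ_core G a b m h w T L L' N₁ K₁ hG ha hb hm0 hh0 hw0 hwG rel hT0 hThigh
    L1 L2 L1' L2' n1 n2 k1 k2
  have hg12 : G ^ 12 ≤ G ^ 14 := pow_le_pow_right₀ hG (by norm_num)
  have hg5 : G ^ 5 ≤ G ^ 14 := pow_le_pow_right₀ hG (by norm_num)
  have hg512 : G ^ 5 ≤ G ^ 12 := pow_le_pow_right₀ hG (by norm_num)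
  refine ⟨L, L', H, 2000 * G ^ 14 * h, ?_, ?_, ?_, ?_, ?_, ?_, ?_, ?_, ?_⟩
  · refine ⟨Nat.cast_pos.mp hN0, Nat.cast_pos.mp hK0, Nat.cast_pos.mp hL0, Nat.cast_pos.mp hL0', by omega, hb, by positivity, ?_, ?_, ?_, ?_⟩
    · -- s1
      rw [← hw, ← hT, Nat.cast_one, mul_one, one_mul]
      have e1 : 320 * G ^ 12 * (h * b ^ 5) ≤ 320 * G ^ 14 * (h * b ^ 5) :=
        mul_le_mul_of_nonneg_right (by linarith) (by positivity)
      have e2 : G ^ 5 * (h * b ^ 5) ≤ G ^ 14 * (h * b ^ 5) :=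
        mul_le_mul_of_nonneg_right hg5 (by positivity)
      have e3 : 0 ≤ G ^ 14 * (h * b ^ 5) := by positivity
      calc 32 * (T * w) * L' / (N₁ : ℝ) ^ 3 + (K₁ : ℝ) ^ 3 / L
          ≤ 320 * G ^ 12 * (h * b ^ 5) + G ^ 5 * (h * b ^ 5) := add_le_add q1 q2
        _ ≤ 2000 * (G ^ 14 * (h * b ^ 5)) := by linarith
        _ = _ := by ring
    · -- s2
      rw [← hw, ← hT, Nat.cast_one, mul_one, one_mul, one_mul]
      have e1 : 320 * G ^ 12 * (h * b) ≤ 320 * G ^ 14 * (h * b) :=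
        mul_le_mul_of_nonneg_right (by linarith) (by positivity)
      have e2 : G ^ 5 * (h * b) ≤ G ^ 14 * (h * b) :=
        mul_le_mul_of_nonneg_right hg5 (by positivity)
      have e3 : 0 ≤ G ^ 14 * (h * b) := by positivity
      calc 32 * (T * w) * L / (N₁ : ℝ) ^ 3 + (K₁ : ℝ) ^ 3 / L' + 2 * (N₁ : ℝ) ^ 2 * K₁ / L
          ≤ 320 * G ^ 12 * (h * b) + G ^ 5 * (h * b) + 2 * G ^ 5 * (h * b) := add_le_add (add_le_add q3 q5) q4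
        _ ≤ 2000 * (G ^ 14 * (h * b)) := by linarith
        _ = _ := by ring
    · -- s3
      rw [← hw, ← hT, Nat.cast_one, mul_one, one_mul, one_mul, one_mul]
      have h5 : 32 * (T * w) * L / (N₁ : ℝ) ^ 3 + (K₁ : ℝ) ^ 3 / L' + 2 * (N₁ : ℝ) ^ 2 * K₁ / L ≤
          323 * G ^ 12 * (h * b) := by
        have e2 : G ^ 5 * (h * b) ≤ G ^ 12 * (h * b) := mul_le_mul_of_nonneg_right hg512 (by positivity)
        calc _ ≤ 320 * G ^ 12 * (h * b) + G ^ 5 * (h * b) + 2 * G ^ 5 * (h * b) := add_le_add (add_le_add q3 q5) q4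
          _ ≤ _ := by linarith
      have h6 : 4 * (N₁ : ℝ) / K₁ * (32 * (T * w) * L / (N₁ : ℝ) ^ 3 + (K₁ : ℝ) ^ 3 / L' +
          2 * (N₁ : ℝ) ^ 2 * K₁ / L) ≤ 1292 * G ^ 14 * (h / b) := by
        calc _ ≤ 4 * G ^ 2 / b ^ 2 * (323 * G ^ 12 * (h * b)) :=
              mul_le_mul q6 h5 (by positivity) (by positivity)
          _ = _ := by field_simp; ring
      have e2 : 5 * G ^ 5 * (h / b) ≤ 5 * G ^ 14 * (h / b) := mul_le_mul_of_nonneg_right (by linarith) (by positivity)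
      have e3 : 0 ≤ G ^ 14 * (h / b) := by positivity
      have h8 : 2000 * G ^ 14 * h / b = 2000 * (G ^ 14 * (h / b)) := by ring
      rw [h8]
      linarith
    · -- s4
      rw [Nat.cast_one, one_mul]
      have h8 : 2000 * G ^ 14 * h / b ^ 5 = 2000 * (G ^ 14 * (h / b ^ 5)) := by ring
      have e2 : G ^ 5 * (h / b ^ 5) ≤ G ^ 14 * (h / b ^ 5) := mul_le_mul_of_nonneg_right hg5 (by positivity)
      have e3 : 0 ≤ G ^ 14 * (h / b ^ 5) := by positivity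
      rw [h8]
      linarith
  · rw [← hT]
    exact hT1
  · rw [← hm]
    exact l1
  · rw [← hm]
    calc (L : ℝ) ≤ 2 * (κ * m / q) := l3
      _ = _ := by ring
  · rw [← hm]
    exact l1'
  · rw [← hm]
    calc (L' : ℝ) ≤ 2 * (κ * (b ^ 4 * m) / q) := l3'
      _ = _ := by ring
  · rw [← hZ, ← hXp]
    exact mul_le_mul_of_nonneg_right hHX (by positivity)
  · rw [← hZ]
    have h1 : G ^ 4 * (64 * (v * p ^ 2)) ≤ G ^ 4 * (Z * e') := by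
      calc G ^ 4 * (64 * (v * p ^ 2)) ≤ G ^ 4 * (64 * (G * p ^ 2)) := by
            refine mul_le_mul_of_nonneg_left (mul_le_mul_of_nonneg_left (mul_le_mul_of_nonneg_right hvG2 (by positivity)) (by norm_num)) (by positivity)
        _ = (64 * G ^ 5 * 1) * p ^ 2 := by ring
        _ ≤ h ^ 2 * p ^ 2 := by
            refine mul_le_mul_of_nonneg_right ?_ (by positivity)
            refine le_trans ?_ hbig
            exact mul_le_mul_of_nonneg_left hQ10 (by positivity)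
        _ ≤ G ^ 4 * Z := hZ1
        _ = G ^ 4 * (Z * 1) := by ring
        _ ≤ _ := mul_le_mul_of_nonneg_left (mul_le_mul_of_nonneg_left he'1 hZ0.le) (by positivity)
    exact le_of_mul_le_mul_left h1 (by positivity)
  · -- the error
    rw [← hZ, ← hT]
    have hPU : (N₁ : ℝ) * K₁ ≤ G ^ 2 * (a ^ 2 * b ^ 2) := by
      calc (N₁ : ℝ) * K₁ ≤ (G * a) * (G * (b ^ 2 * a)) := mul_le_mul n2 k2 hK0.le (by positivity)
        _ = _ := by ring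
    have hD : p ^ 2 / Z ≤ G ^ 4 / h ^ 2 := by
      rw [div_le_div_iff₀ hZ0 (by positivity)]
      calc p ^ 2 * h ^ 2 = h ^ 2 * p ^ 2 := by ring
        _ ≤ _ := hZ1
    have h5 := QSZ_err G h (a ^ 2 * b ^ 2) (√((L : ℝ) * L')) T ((N₁ : ℝ) * K₁) (2000 * G ^ 14 * h) (p ^ 2 / Z) hG hh0 hhU hT0 hThigh
      (by positivity) hPU (by positivity) le_rfl (Real.sqrt_nonneg _) (by positivity) hD
    refine le_trans h5 ?_
    have h3 : √((L : ℝ) * L') ≤ 2 * b ^ 2 * m := by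
      rw [Real.sqrt_le_left (by positivity)]
      calc (L : ℝ) * L' ≤ (2 * m) * (2 * (b ^ 4 * m)) := mul_le_mul L2 L2' hL0'.le (by positivity)
        _ = _ := by ring
    calc 2 * 10 ^ 8 * G ^ 46 * (√((L : ℝ) * L') * (a ^ 2 * b ^ 2)) ≤
        2 * 10 ^ 8 * G ^ 46 * ((2 * b ^ 2 * m) * (a ^ 2 * b ^ 2)) :=
          mul_le_mul_of_nonneg_left (mul_le_mul_of_nonneg_right h3 (by positivity)) (by positivity)
      _ = 4 * 10 ^ 8 * G ^ 46 * (b ^ 4 * (m * a ^ 2)) := by ring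
      _ = _ := by
          rw [hm, hc]; field_simp

/-- the real numbers `Q = N^(1/40)` -/
theorem QSZ_R (N M : ℝ) (hM : 1 ≤ M) (hN : M ^ 20 ≤ N) : ∃ R : ℝ, 1 ≤ R ∧ R ^ 40 = N ∧ M ≤ R ^ 2 ∧ R = N ^ (1 / 40 : ℝ) := by
  have h0 : (1 : ℝ) ≤ N := le_trans (one_le_pow₀ hM) hN
  refine ⟨N ^ (1 / 40 : ℝ), ?_, ?_, ?_, rfl⟩
  · exact Real.one_le_rpow h0 (by norm_num)
  · rw [← Real.rpow_natCast, ← Real.rpow_mul (by linarith)]
    norm_num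
  · have h1 : (N ^ (1 / 40 : ℝ)) ^ 2 = N ^ (1 / 20 : ℝ) := by
      rw [← Real.rpow_natCast, ← Real.rpow_mul (by linarith)]
      norm_num
    rw [h1]
    have h2 : (M ^ 20) ^ (1 / 20 : ℝ) = M := by
      rw [← Real.rpow_natCast, ← Real.rpow_mul (by linarith)]
      norm_num
    rw [← h2]
    exact Real.rpow_le_rpow (by positivity) hN (by norm_num)

theorem QSZ : QSZ_stmt := by
  intro B τ hτ
  obtain ⟨η, hη0, hη1, hη2⟩ : ∃ η : ℝ, 0 < η ∧ η ≤ 1 / 100 ∧ η * B ≤ τ / 4 := by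
    refine ⟨min (1 / 100) (τ / (4 * (B + 1))), lt_min (by norm_num) (by positivity), min_le_left _ _, ?_⟩
    calc min (1 / 100) (τ / (4 * (B + 1))) * B ≤ τ / (4 * (B + 1)) * B :=
          mul_le_mul_of_nonneg_right (min_le_right _ _) (Nat.cast_nonneg B)
      _ ≤ τ / 4 := by
          rw [div_mul_eq_mul_div, div_le_div_iff₀ (by positivity) (by norm_num)]
          nlinarith
  refine ⟨η, hη0, hη1, ?_⟩
  intro c₀ C₀ κ v R q e' hc₀ hC₀ hκ hκ1 hv hR hq heq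
  have hqR : (1 : ℝ) ≤ q := by exact_mod_cast hq
  -- the constant
  obtain ⟨G, hG⟩ : ∃ G : ℝ, G = 1 + 1 / c₀ + C₀ + 1 / κ + 1 / v + v + R + q := ⟨_, rfl⟩
  have i1 : 0 < 1 / c₀ := by positivity
  have i2 : 0 < 1 / κ := by positivity
  have i3 : 0 < 1 / v := by positivity
  have hG1 : 1 ≤ G := by linarith
  have hG0 : 0 < G := by linarith
  have hcG : 1 ≤ G * c₀ := by
    have h1 : 1 / c₀ ≤ G := by linarith
    rwa [div_le_iff₀ hc₀] at h1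
  have hCG : C₀ ≤ G := by linarith
  have hκG : 1 ≤ G * κ := by
    have h1 : 1 / κ ≤ G := by linarith
    rwa [div_le_iff₀ hκ] at h1
  have hvG : 1 ≤ G * v := by
    have h1 : 1 / v ≤ G := by linarith
    rwa [div_le_iff₀ hv] at h1
  have hvG2 : v ≤ G := by linarith
  have hRG : R ≤ G := by linarith
  have hqG : (q : ℝ) ≤ G := by linarith
  have hC1 : (1 : ℝ) ≤ 4 * 10 ^ 8 * G ^ 46 := by
    have h1 : (1 : ℝ) ≤ G ^ 46 := one_le_pow₀ hG1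
    linarith
  have hM : (1 : ℝ) < 64 * G ^ 5 := by
    have h1 : (1 : ℝ) ≤ G ^ 5 := one_le_pow₀ hG1
    linarith
  refine ⟨4 * 10 ^ 8 * G ^ 46, (64 * G ^ 5) ^ 20, hC1, ?_⟩
  intro N Y Y₂ hN hRg N₁ K₁ hB
  obtain ⟨hYY, hY2, hA2, hlow⟩ := hRg
  obtain ⟨Q, hQ, hQN, hQ2, hQe⟩ := QSZ_R N (64 * G ^ 5) hM.le hN
  have hQ0 : 0 < Q := by linarith
  have hN1 : 1 < N := lt_of_lt_of_le (one_lt_pow₀ hM (by norm_num)) hN
  have hN0 : 0 < N := by linarith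
  have hηQ : N ^ η ≤ Q := by
    rw [hQe]
    exact Real.rpow_le_rpow_of_exponent_le hN1.le (by linarith)
  -- the product
  have hprod : Q ^ 39 ≤ Y * Y₂ := by
    have h1 : N ^ (1 - η) * N ^ η = N := by
      rw [← Real.rpow_add hN0]
      simp
    have h2 : Q ^ 39 * Q ≤ N ^ (1 - η) * Q := by
      calc Q ^ 39 * Q = N := by rw [← hQN]; ring
        _ = N ^ (1 - η) * N ^ η := h1.symm
        _ ≤ N ^ (1 - η) * Q := mul_le_mul_of_nonneg_left hηQ (by positivity)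
    exact le_trans (le_of_mul_le_mul_right h2 hQ0) hlow
  have hprod0 : 0 < Y * Y₂ := lt_of_lt_of_le (by positivity) hprod
  have hY0 : 0 < Y := by
    rcases lt_trichotomy Y 0 with h1 | h1 | h1
    · exfalso
      have h5 : 1 < N ^ η := Real.one_lt_rpow hN1 hη0
      have h6 : N ^ η * Y < 1 * Y := mul_lt_mul_of_neg_right h5 h1
      linarith
    · rw [h1, zero_mul] at hprod0
      exact absurd hprod0 (lt_irrefl 0)
    · exact h1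
  have hY20 : 0 < Y₂ := lt_of_lt_of_le hY0 hYY
  have hYR : Q ^ 19 ≤ Y := by
    have h1 : Q * (Q ^ 19) ^ 2 ≤ Q * Y ^ 2 := by
      calc Q * (Q ^ 19) ^ 2 = Q ^ 39 := by ring
        _ ≤ Y * Y₂ := hprod
        _ ≤ Y * (Q * Y) := by
            refine mul_le_mul_of_nonneg_left ?_ hY0.le
            exact le_trans hY2 (mul_le_mul_of_nonneg_right hηQ hY0.le)
        _ = Q * Y ^ 2 := by ring
    exact (pow_le_pow_iff_left₀ (by positivity) hY0.le (by norm_num)).mp (le_of_mul_le_mul_left h1 hQ0)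
  -- square roots
  obtain ⟨p, hp⟩ : ∃ p : ℝ, p = √Y := ⟨_, rfl⟩
  obtain ⟨g, hg⟩ : ∃ g : ℝ, g = √Y₂ := ⟨_, rfl⟩
  obtain ⟨f, hf⟩ : ∃ f : ℝ, f = √N := ⟨_, rfl⟩
  have hp0 : 0 < p := by rw [hp]; exact Real.sqrt_pos.mpr hY0
  have hg0 : 0 < g := by rw [hg]; exact Real.sqrt_pos.mpr hY20
  have hf0 : 0 < f := by rw [hf]; exact Real.sqrt_pos.mpr hN0
  have hpp : p ^ 2 = Y := by rw [hp]; exact Real.sq_sqrt hY0.le
  have hgg : g ^ 2 = Y₂ := by rw [hg]; exact Real.sq_sqrt hY20.le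
  have hff : f ^ 2 = N := by rw [hf]; exact Real.sq_sqrt hN0.le
  have hpg : p ≤ g := by rw [hp, hg]; exact Real.sqrt_le_sqrt hYY
  obtain ⟨b, hb⟩ : ∃ b : ℝ, b = √(g / p) := ⟨_, rfl⟩
  have hb2 : b ^ 2 = g / p := by rw [hb]; exact Real.sq_sqrt (by positivity)
  have hb1 : 1 ≤ b := by
    rw [hb, Real.one_le_sqrt, one_le_div hp0]
    exact hpg
  have hb0 : 0 < b := by linarith
  have hb4 : b ^ 4 = Y₂ / Y := by
    rw [← hpp, ← hgg]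
    calc b ^ 4 = (b ^ 2) ^ 2 := by ring
      _ = _ := by rw [hb2]; ring
  obtain ⟨a, ha⟩ : ∃ a : ℝ, a = p ^ 2 * g / f := ⟨_, rfl⟩
  have ha0 : 0 < a := by rw [ha]; positivity
  have hsN : sN N Y Y₂ = a := by
    unfold sN
    rw [← hg, ← hf, ha, hpp]
  have hsK : sK N Y Y₂ = b ^ 2 * a := by
    unfold sK
    rw [← hp, ← hf, ha, hb2, ← hgg]
    field_simp
  have hsM : sM N Y Y₂ = p * a := by
    unfold sM
    rw [← hp, ← hg, ← hf, ha, ← hpp]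
    ring
  have hsG : sG N Y Y₂ = b ^ 4 * (p * a) := by
    unfold sG
    rw [← hp, ← hg, ← hf, ha, hb4, ← hpp, ← hgg]
    field_simp
  have hap2 : (a / p) ^ 2 = Y * Y₂ / N := by
    rw [← hff, ← hpp, ← hgg, ha]
    field_simp
  have hap : 1 ≤ Q ^ 3 * (a / p) ^ 2 := by
    rw [hap2, ← mul_div_assoc, one_le_div hN0]
    calc N = Q * Q ^ 39 := by rw [← hQN]; ring
      _ ≤ Q ^ 3 * (Y * Y₂) := by
          refine mul_le_mul ?_ hprod (by positivity) (by positivity)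
          calc Q = Q ^ 1 := (pow_one Q).symm
            _ ≤ Q ^ 3 := pow_le_pow_right₀ hQ (by norm_num)
  have hap1 : (a / p) ^ 2 ≤ 1 := by
    rw [hap2, div_le_one hN0]
    exact hA2
  have n1 := hB.n1
  have n2 := hB.n2
  have k1 := hB.k1
  have k2 := hB.k2
  rw [hsN] at n1 n2
  rw [hsK] at k1 k2
  have n1' : a ≤ G * N₁ := by
    calc a = 1 * a := by ring
      _ ≤ (G * c₀) * a := mul_le_mul_of_nonneg_right hcG ha0.le
      _ = G * (c₀ * a) := by ring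
      _ ≤ _ := mul_le_mul_of_nonneg_left n1 hG0.le
  have n2' : (N₁ : ℝ) ≤ G * a := le_trans n2 (mul_le_mul_of_nonneg_right hCG ha0.le)
  have hba0 : 0 < b ^ 2 * a := by positivity
  have k1' : b ^ 2 * a ≤ G * K₁ := by
    calc b ^ 2 * a = 1 * (b ^ 2 * a) := by ring
      _ ≤ (G * c₀) * (b ^ 2 * a) := mul_le_mul_of_nonneg_right hcG hba0.le
      _ = G * (c₀ * (b ^ 2 * a)) := by ring
      _ ≤ _ := mul_le_mul_of_nonneg_left k1 hG0.le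
  have k2' : (K₁ : ℝ) ≤ G * (b ^ 2 * a) := le_trans k2 (mul_le_mul_of_nonneg_right hCG hba0.le)
  obtain ⟨L, L', H, ρ, g1, g2, g3, g4, g5, g6, g7, g8, g9⟩ :=
    QSZ_fin G Q p a b κ v R q e' hG1 hQ hQ2 hp0 ha0 hb1 (by rw [hpp]; exact hYR) hap hap1 hκ hκ1 hκG hv hvG hvG2 hR hRG
      hq hqG heq N₁ K₁ n1' n2' k1' k2'
  have hbB : b ^ B ≤ ((2 * H + 1 : ℕ) : ℝ) ^ τ := by
    have j1 : b ≤ N ^ η := by
      calc b = b ^ 1 := (pow_one b).symm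
        _ ≤ b ^ 4 := pow_le_pow_right₀ hb1 (by norm_num)
        _ ≤ N ^ η := by rw [hb4, div_le_iff₀ hY0]; exact hY2
    calc b ^ B ≤ (N ^ η) ^ B := pow_le_pow_left₀ (by linarith) j1 B
      _ = N ^ (η * B) := by rw [Real.rpow_mul hN0.le, Real.rpow_natCast]
      _ ≤ N ^ (τ / 4) := Real.rpow_le_rpow_of_exponent_le hN1.le hη2
      _ = (Q ^ 10) ^ τ := by
          rw [hQe, ← Real.rpow_natCast, ← Real.rpow_mul hN0.le, ← Real.rpow_mul hN0.le]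
          congr 1
          push_cast
          ring
      _ ≤ _ := Real.rpow_le_rpow (by positivity) g2 hτ.le
  have hYY4 : b ^ 4 * p ^ 4 = Y * Y₂ := by
    rw [hb4, ← hpp, ← hgg]
    field_simp
  have hc3 : (a / p) ^ 3 = (Y * Y₂ / N) ^ (3 / 2 : ℝ) := by
    rw [← hap2, ← Real.rpow_natCast, ← Real.rpow_natCast, ← Real.rpow_mul (by positivity)]
    norm_num
  rw [hsM, hsG]
  refine ⟨L, L', H, b, ρ, g1, hbB, g3, g4, g5, g6, ?_, ?_, ?_⟩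
  · rw [← hpp]
    exact g7
  · rw [← hpp]
    exact g8
  · rw [← hc3, ← hYY4, ← hpp]
    exact g9

end Pool.Agent.T7
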